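import Mathlib
import Pool.Agent.Helper232.RZ.Ctbl
set_option autoImplicit false

namespace Pool.Agent.Results.MP_edf6ee_al.CountablyDefined

/-- A module is indecomposable: it is nonzero and in every direct decomposition one summand is zero. -/
def Indecomposable (R : Type) [Ring R] (N : Type) [AddCommGroup N] [Module R N] : Prop :=
  Nontrivial N ∧ ∀ A B : Submodule R N, IsCompl A B → A = ⊥ ∨ B = ⊥

/-- A module is pure-injective (algebraically compact): every system of linear equations in
arbitrarily many unknowns, all of whose finite subsystems are solvable, is solvable. -/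
def PureInjective (R : Type) [Ring R] (N : Type) [AddCommGroup N] [Module R N] : Prop :=
  ∀ (I J : Type) (a : J → I →₀ R) (b : J → N),
    (∀ F : Finset J, ∃ x : I → N, ∀ j ∈ F, ((a j).sum fun i r => r • x i) = b j) →
    ∃ x : I → N, ∀ j, ((a j).sum fun i r => r • x i) = b j

/-- A pair of pp conditions in `n` variables `x`: the condition `φ(x)`, there is `y` with
`A x + B y = 0`, and the condition `ψ(x)`, there is `y` with `C x + D y = 0`. -/
structure PPPair (R : Type) where
  (n m p m' p' : ℕ)
  A : Fin m → Fin n → R
  B : Fin m → Fin p → R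
  C : Fin m' → Fin n → R
  D : Fin m' → Fin p' → R

/-- The pair is closed on `M`: `φ(M)` is contained in `ψ(M)`. The indecomposable pure-injective
modules on which a pair is not closed form a basic open set of the Ziegler spectrum. -/
def PPPair.ClosedOn {R : Type} [Ring R] (q : PPPair R) (M : Type) [AddCommGroup M] [Module R M] :
    Prop :=
  ∀ x : Fin q.n → M,
    (∃ y : Fin q.p → M, ∀ i, (∑ j, q.A i j • x j) + ∑ l, q.B i l • y l = 0) →
    (∃ y : Fin q.p' → M, ∀ i, (∑ j, q.C i j • x j) + ∑ l, q.D i l • y l = 0)

/-- Over an artin algebra `R` (module-finite over a commutative artinian ring `k`) let `N` be an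
indecomposable pure-injective module such that `{N}` is the closed subset of the Ziegler spectrum
given by countably many pp-pairs `q 0, q 1, ...`. Then `N` has finite endolength. -/
theorem result (k R : Type) [CommRing k] [IsArtinianRing k] [Ring R] [Algebra k R]
    [Module.Finite k R] (N : Type) [AddCommGroup N] [Module R N]
    (hind : Indecomposable R N) (hpi : PureInjective R N)
    (q : ℕ → PPPair R) (hN : ∀ i, (q i).ClosedOn N)
    (huniq : ∀ (M : Type) [AddCommGroup M] [Module R M], Indecomposable R M → PureInjective R M →
      (∀ i, (q i).ClosedOn M) → Nonempty (M ≃ₗ[R] N)) :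
    IsFiniteLength (Module.End R N) N := by
  have hU : Pool.Agent.Helper232.RZ.Uniq (Set.range fun i : ℕ =>
      (⟨(q i).n, (⟨(q i).m, (q i).p, (q i).A, (q i).B⟩,
        ⟨(q i).m', (q i).p', (q i).C, (q i).D⟩)⟩ :
        Σ n : ℕ, Pool.Agent.Helper232.RZ.PP R n × Pool.Agent.Helper232.RZ.PP R n)) N :=
    { ac := hpi
      ind := hind
      mem := by
        rintro s ⟨i, rfl⟩
        exact hN i
      uniq := by
        intro M _ _ hi ha hm
        exact huniq M hi ha (fun i => hm _ ⟨i, rfl⟩) }
  exact Pool.Agent.Helper232.RZ.main0 _ N hU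
    (fun θ => Pool.Agent.Helper232.RZ.dim2 (k := k) _ N hU θ)

end Pool.Agent.Results.MP_edf6ee_al.CountablyDefined
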